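import Mathlib
import Pool.Agent.Helper669.VFinal
import Pool.Agent.Helper669.VNeg

set_option autoImplicit false

/-!
# The relation `(ℵ₂; ℵ₃) → ((ℵ₂, ℵ₂), (ℵ₁, ℵ₁))` is independent of ZFC + GCH
-/

namespace Pool.Agent.Results.MP_9ed2bb_lc.Independent

open Cardinal Pool.Agent.Helper669.Forcing Pool.Agent.Helper669.K Pool.Agent.Helper669.U
  Pool.Agent.Helper669.V

/-- Assume GCH.

(1) Some forcing notion forces GCH, that every uncountable regular cardinal stays regular (so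
`ℵ₁, ℵ₂, ℵ₃` are the same cardinals in the extension), and that the polarized relation
`(ℵ₂; ℵ₃) → ((ℵ₂, ℵ₂), (ℵ₁, ℵ₁))` is false.

(2) If `κ` is a huge cardinal with target `m`, then some forcing notion forces GCH, that
`ω₁`, `κ` and `m` are regular, that every cardinal below `κ` has cardinality at most `ℵ₁` and
every cardinal below `m` has cardinality at most `κ` (so `κ = ℵ₂` and `m = ℵ₃`), and that the
polarized relation `(κ; m) → ((κ, κ), (ℵ₁, ℵ₁))` is true. -/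
theorem result (hGCH : ∀ ν : Cardinal.{0}, ℵ₀ ≤ ν → 2 ^ ν = Order.succ ν) :
    (∃ (P : Type) (_ : Preorder P), Nonempty P ∧ ∀ p : P,
      (∀ μ : Cardinal.{0}, μ.IsRegular → ℵ₀ < μ → p ∈ StaysRegular P μ) ∧
      p ∈ ForcesGCH P ∧
      p ∈ fnot (PolarizedRel P (ℵ_ 2 : Cardinal.{0}).ord.ToType (ℵ_ 3 : Cardinal.{0}).ord.ToType
        (ℵ₁ : Cardinal.{0}).ord.ToType)) ∧
    ∀ κ m : Cardinal.{0}, IsHuge κ m →
      ∃ (P : Type) (_ : Preorder P), Nonempty P ∧ ∀ p : P,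
        p ∈ StaysRegular P ℵ₁ ∧ p ∈ StaysRegular P κ ∧ p ∈ StaysRegular P m ∧
        p ∈ CollapsedTo P ℵ₁ κ ∧ p ∈ CollapsedTo P κ m ∧ p ∈ ForcesGCH P ∧
        p ∈ PolarizedRel P κ.ord.ToType m.ord.ToType (ℵ₁ : Cardinal.{0}).ord.ToType := by
  refine ⟨negative_forcing hGCH, fun κ m h => ?_⟩
  obtain ⟨P, i, h1, h2⟩ := huge_iteration_gch h hGCH
  refine ⟨P, i, h1, fun p => ?_⟩
  obtain ⟨a, b, c, d, e, f, _, g⟩ := h2 p
  exact ⟨a, b, c.2 m c.1 le_rfl, d, e, f, g⟩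

end Pool.Agent.Results.MP_9ed2bb_lc.Independent
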